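import Pool.Agent.W819.EN.Stm

/-!
# Superexponential tails of the cost of a rectangle, from slabs
-/

namespace Pool.Agent.W320.EN
open H974 Finset Pool.Agent.W819.EN

theorem okP : Ok P2 := fun _ =>
  ⟨by show (0 : ℝ) ≤ 1 / 2; norm_num, by show (1 / 2 : ℝ) ≤ 1; norm_num⟩

theorem line_h {G : Set Edg} {a y : ℤ} (m : ℕ)
    (h : ∀ x : ℤ, a ≤ x → x < a + m → ((x, y, true) : Edg) ∈ G) : Reach G (a, y) (a + m, y) := by
  induction m with
  | zero => simp only [Nat.cast_zero, add_zero]; exact Reach.refl _ _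
  | succ m ih =>
    have h1 := ih fun x hx hx2 => h x hx (by push_cast; omega)
    refine h1.trans (Adj.reach ⟨((a + m, y, true) : Edg), h _ (by omega) (by push_cast; omega),
      Or.inl ⟨?_, ?_⟩⟩)
    · simp [src]
    · simp [tgt, add_assoc]

theorem opn_mono {k k' : ℕ} (h : k ≤ k') {S : Finset Edg} {C : Finset Edg → Prop}
    {F : Finset Edg} (hF : Opn k S C F) : Opn k' S C F := by
  obtain ⟨X, h1, h2, h3⟩ := hF
  exact ⟨X, h1, h2.trans h, h3⟩

/-- the cost of a crossing depends only on the edges of the rectangle -/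
theorem opn_loc {k : ℕ} {S T : Finset Edg} {a b c d : ℤ} (hT : LRE a b c d ⊆ T)
    {F : Finset Edg} :
    Opn k S (LRc a b c d) F ↔ Opn k S (LRc a b c d) (F ∩ T) := by
  have key : ∀ X : Finset Edg, LRc a b c d (F ∪ X) ↔ LRc a b c d (F ∩ T ∪ X) := by
    intro X
    rw [LRc_local (S := T) hT, LRc_local (F := F ∩ T ∪ X) (S := T) hT]
    have : (F ∪ X) ∩ T = (F ∩ T ∪ X) ∩ T := by
      ext e
      simp only [Finset.mem_inter, Finset.mem_union]
      tauto
    rw [this]
  unfold Opn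
  constructor
  · rintro ⟨X, h1, h2, h3⟩
    exact ⟨X, h1, h2, (key X).1 h3⟩
  · rintro ⟨X, h1, h2, h3⟩
    exact ⟨X, h1, h2, (key X).2 h3⟩

theorem opn_mp (g : LSym) {k : ℕ} {S : Finset Edg} {C C' : Finset Edg → Prop} {F : Finset Edg}
    (hC : ∀ G, C G → C' (g.mp G)) (h : Opn k S C F) : Opn k (g.mp S) C' (g.mp F) := by
  obtain ⟨X, h1, h2, h3⟩ := h
  refine ⟨g.mp X, g.mp_mono h1, ?_, ?_⟩
  · unfold LSym.mp
    rw [Finset.card_map]
    exact h2
  · have h4 : g.mp F ∪ g.mp X = g.mp (F ∪ X) := by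
      unfold LSym.mp
      rw [Finset.map_union]
    rw [h4]
    exact hC _ h3

/-- independent events -/
theorem pr_all (U : Finset Edg) (T : ℕ → Finset Edg) (D : ℕ → Finset Edg → Prop) (c : ℝ) (n : ℕ)
    (hT : ∀ j < n, T j ⊆ U) (hd : ∀ i < n, ∀ j < n, i ≠ j → Disjoint (T i) (T j))
    (hloc : ∀ j < n, ∀ F, F ⊆ U → (D j F ↔ D j (F ∩ T j)))
    (hc : ∀ j < n, Pr P2 U (D j) ≤ c) :
    Pr P2 U (fun F => ∀ j < n, D j F) ≤ c ^ n := by
  have ok : Ok P2 := okP
  induction n with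
  | zero =>
    rw [pow_zero]
    exact Pr_le_one ok _ _
  | succ n ih =>
    have ih' := ih (fun j hj => hT j (by omega)) (fun i hi j hj => hd i (by omega) j (by omega))
      (fun j hj => hloc j (by omega)) (fun j hj => hc j (by omega))
    have e1 : Pr P2 U (fun F => ∀ j < n + 1, D j F) =
        Pr P2 U (fun F => (∀ j < n, D j F) ∧ D n F) := by
      apply Pr_congr
      intro F _
      constructor
      · intro h
        exact ⟨fun j hj => h j (by omega), h n (by omega)⟩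
      · rintro ⟨h1, h2⟩ j hj
        rcases Nat.lt_succ_iff_lt_or_eq.1 hj with h3 | h3
        · exact h1 j h3
        · rw [h3]; exact h2
    have e2 : Pr P2 U (fun F => (∀ j < n, D j F) ∧ D n F) =
        Pr P2 U (fun F => ∀ j < n, D j F) * Pr P2 U (D n) := by
      apply Pr_indep (S := (range n).biUnion T) (T := T n)
      · intro e he
        obtain ⟨j, hj, hj2⟩ := Finset.mem_biUnion.1 he
        exact hT j (by have := Finset.mem_range.1 hj; omega) hj2
      · exact hT n (by omega)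
      · rw [Finset.disjoint_biUnion_left]
        intro j hj
        have := Finset.mem_range.1 hj
        exact hd j (by omega) n (by omega) (by omega)
      · intro F hF
        have key : ∀ j < n, (D j F ↔ D j (F ∩ (range n).biUnion T)) := by
          intro j hj
          rw [hloc j (by omega) F hF, hloc j (by omega) (F ∩ (range n).biUnion T)
            (Finset.inter_subset_left.trans hF)]
          have : F ∩ (range n).biUnion T ∩ T j = F ∩ T j := by
            ext e
            simp only [Finset.mem_inter, Finset.mem_biUnion, Finset.mem_range]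
            constructor
            · rintro ⟨⟨h1, _⟩, h2⟩
              exact ⟨h1, h2⟩
            · rintro ⟨h1, h2⟩
              exact ⟨⟨h1, j, hj, h2⟩, h2⟩
          rw [this]
        constructor
        · intro h j hj
          exact (key j hj).1 (h j hj)
        · intro h j hj
          exact (key j hj).2 (h j hj)
      · exact hloc n (by omega)
    rw [e1, e2, pow_succ]
    have hc0 : 0 ≤ c := (Pr_nonneg ok U (D n)).trans (hc n (by omega))
    exact mul_le_mul ih' (hc n (by omega)) (Pr_nonneg ok _ _) (pow_nonneg hc0 _)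

theorem cheap {k : ℕ} {w h : ℤ} (hh0 : 0 ≤ h) (hw : 0 ≤ w) (hk : w ≤ k) (F : Finset Edg) :
    Opn k (LRE 0 w 0 h) (LRc 0 w 0 h) F := by
  refine ⟨(Finset.Ico 0 w).image (fun x => ((x, 0, true) : Edg)), ?_, ?_, ?_⟩
  · intro e he
    obtain ⟨x, hx, rfl⟩ := Finset.mem_image.1 he
    have := Finset.mem_Ico.1 hx
    rw [mem_LRE_true]
    omega
  · refine Finset.card_image_le.trans ?_
    rw [Int.card_Ico]
    omega
  · refine ⟨0, 0, ⟨le_rfl, hh0⟩, ⟨le_rfl, hh0⟩, ?_⟩
    have h1 := line_h (G := ↑(F ∪ (Finset.Ico 0 w).image (fun x => ((x, 0, true) : Edg))) ∩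
      ↑(LRE 0 w 0 h)) (a := 0) (y := 0) w.toNat ?_
    · rwa [show (0 : ℤ) + (w.toNat : ℤ) = w by omega] at h1
    · intro x h1 h2
      have h3 : ((x, 0, true) : Edg) ∈ LRE 0 w 0 h := by
        rw [mem_LRE_true]
        omega
      refine ⟨mem_coe.2 (mem_union_right _ (Finset.mem_image.2 ⟨x, ?_, rfl⟩)), mem_coe.2 h3⟩
      rw [Finset.mem_Ico]
      omega

/-- the cost of a rectangle is at most the cost of each of its slabs -/
theorem opn_slab {k : ℕ} {w h c d : ℤ} (hw : 0 < w) (hc : 0 ≤ c) (hd : d ≤ h) {F : Finset Edg}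
    (hF : Opn k (LRE 0 w c d) (LRc 0 w c d) F) : Opn k (LRE 0 w 0 h) (LRc 0 w 0 h) F := by
  obtain ⟨X, h1, h2, h3⟩ := hF
  refine ⟨X, h1.trans ?_, h2, LRc_sub le_rfl hw le_rfl hc hd h3⟩
  rintro ⟨x, y, _ | _⟩ h8
  · simp only [mem_LRE_false] at h8 ⊢; omega
  · simp only [mem_LRE_true] at h8 ⊢; omega

theorem pr_trans {k : ℕ} {w s t : ℤ} :
    Pr P2 (LRE 0 w t (t + s)) (fun F => ¬ Opn k (LRE 0 w t (t + s)) (LRc 0 w t (t + s)) F) ≤
      Pr P2 (LRE 0 w 0 s) (fun F => ¬ Opn k (LRE 0 w 0 s) (LRc 0 w 0 s) F) := by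
  have ok : Ok P2 := okP
  have h1 : LRE 0 w t (t + s) = (trl 0 t).mp (LRE 0 w 0 s) := by
    rw [trl_LRE]
    congr 1 <;> ring
  rw [h1]
  have h2 := (trl 0 t).pr (1 / 2) (LRE 0 w 0 s)
    (fun F => ¬ Opn k ((trl 0 t).mp (LRE 0 w 0 s)) (LRc 0 w t (t + s)) F)
  refine (le_of_eq h2).trans ?_
  apply Pr_mono ok
  intro F _ hF hO
  apply hF
  apply opn_mp (trl 0 t) _ hO
  intro G hG
  have := LRc_trl (s := 0) (t := t) hG
  have e1 : (0 : ℤ) + 0 = 0 := by ring
  have e2 : w + 0 = w := by ring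
  have e3 : 0 + t = t := by ring
  have e4 : s + t = t + s := by ring
  rwa [e1, e2, e3, e4] at this

theorem t_TAIL (hS : Slab) : Tail := by
  have ok : Ok P2 := okP
  obtain ⟨r, hr0, hr1, hS⟩ := hS
  intro ρ hρ
  rcases le_or_gt 1 ρ with h1 | h1
  · refine ⟨1, one_pos, fun w h _ _ _ k => ?_⟩
    rw [one_mul]
    exact (Pr_le_one ok _ _).trans (one_le_pow₀ h1)
  obtain ⟨m0, hm0⟩ := exists_pow_lt_of_lt_one hρ hr1
  set m := m0 + 1 with hm
  have hmr : r ^ m ≤ ρ := by
    rw [hm, pow_succ]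
    have : r ^ m0 * r ≤ r ^ m0 * 1 := mul_le_mul_of_nonneg_left hr1.le (by positivity)
    linarith
  obtain ⟨C, hC, hS⟩ := hS (24 * m)
  refine ⟨C ^ m + (1 / ρ) ^ (24 * m), by positivity, fun w h hh1 hw hwh k => ?_⟩
  have hA : 0 ≤ C ^ m * ρ ^ k := by positivity
  have hB : 0 ≤ (1 / ρ) ^ (24 * m) * ρ ^ k := by positivity
  rcases lt_or_ge h (3 * m) with hc | hc
  · -- low rectangles
    rcases lt_or_ge k (24 * m) with hk | hk
    · have h2 : 1 ≤ (1 / ρ) ^ (24 * m) * ρ ^ k := by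
        have h3 : ρ ^ (24 * m) ≤ ρ ^ k := pow_le_pow_of_le_one hρ.le h1.le hk.le
        calc (1 : ℝ) = (1 / ρ) ^ (24 * m) * ρ ^ (24 * m) := by
              rw [← mul_pow, one_div, inv_mul_cancel₀ hρ.ne', one_pow]
          _ ≤ _ := mul_le_mul_of_nonneg_left h3 (by positivity)
      have := Pr_le_one ok (LRE 0 w 0 h)
        (fun F => ¬ Opn k (LRE 0 w 0 h) (LRc 0 w 0 h) F)
      rw [add_mul]
      linarith
    · have h2 : Pr P2 (LRE 0 w 0 h) (fun F => ¬ Opn k (LRE 0 w 0 h) (LRc 0 w 0 h) F) ≤ 0 := by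
        have h3 : Pr P2 (LRE 0 w 0 h) (fun F => Opn k (LRE 0 w 0 h) (LRc 0 w 0 h) F) = 1 :=
          Pr_true _ (fun F _ => cheap (by omega) (by omega) (by omega) F)
        rw [Pr_not, h3]
        norm_num
      refine h2.trans ?_
      rw [add_mul]
      linarith
  · -- high rectangles
    have hm1 : (0 : ℤ) < m := by omega
    obtain ⟨s, hs1, hs2, hs3⟩ : ∃ s : ℤ, 2 ≤ s ∧ m * (s + 1) ≤ h + 1 ∧ h + 1 < m * (s + 2) := by
      refine ⟨(h + 1) / m - 1, ?_, ?_, ?_⟩
      · have : 3 ≤ (h + 1) / m := by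
          rw [Int.le_ediv_iff_mul_le hm1]
          omega
        omega
      · have := Int.mul_ediv_self_le (x := h + 1) (k := (m : ℤ)) hm1.ne'
        have e : (h + 1) / (m : ℤ) - 1 + 1 = (h + 1) / m := by ring
        rw [e]
        exact this
      · have := Int.lt_mul_ediv_self_add (x := h + 1) (k := (m : ℤ)) hm1
        have e : (m : ℤ) * ((h + 1) / m - 1 + 2) = m * ((h + 1) / m) + m := by ring
        rw [e]
        exact this
    have hws : w ≤ ((24 * m : ℕ) : ℤ) * s := by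
      push_cast
      nlinarith
    have hD := hS w s hs1 hw hws k
    have hsl : ∀ j : ℕ, j < m → (j : ℤ) * (s + 1) + s ≤ h := by
      intro j hj
      have : (j : ℤ) + 1 ≤ m := by omega
      nlinarith
    have h2 := pr_all (LRE 0 w 0 h) (fun j => LRE 0 w ((j : ℤ) * (s + 1)) ((j : ℤ) * (s + 1) + s))
      (fun j F => ¬ Opn k (LRE 0 w ((j : ℤ) * (s + 1)) ((j : ℤ) * (s + 1) + s))
        (LRc 0 w ((j : ℤ) * (s + 1)) ((j : ℤ) * (s + 1) + s)) F) (C * r ^ k) m ?_ ?_ ?_ ?_
    · calc Pr P2 (LRE 0 w 0 h) (fun F => ¬ Opn k (LRE 0 w 0 h) (LRc 0 w 0 h) F)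
          ≤ Pr P2 (LRE 0 w 0 h) (fun F => ∀ j < m,
              ¬ Opn k (LRE 0 w ((j : ℤ) * (s + 1)) ((j : ℤ) * (s + 1) + s))
              (LRc 0 w ((j : ℤ) * (s + 1)) ((j : ℤ) * (s + 1) + s)) F) := by
            apply Pr_mono ok
            intro F _ hF j hj hO
            exact hF (opn_slab hw (by positivity) (hsl j hj) hO)
        _ ≤ (C * r ^ k) ^ m := h2
        _ = C ^ m * (r ^ m) ^ k := by rw [mul_pow]; ring
        _ ≤ C ^ m * ρ ^ k := by
            apply mul_le_mul_of_nonneg_left _ (by positivity)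
            exact pow_le_pow_left₀ (by positivity) hmr k
        _ ≤ (C ^ m + (1 / ρ) ^ (24 * m)) * ρ ^ k := by
            rw [add_mul]
            linarith
    · intro j hj
      have hj2 := hsl j hj
      have hj3 : 0 ≤ (j : ℤ) * (s + 1) := by positivity
      rintro ⟨x, y, _ | _⟩ h8
      · simp only [mem_LRE_false] at h8 ⊢; omega
      · simp only [mem_LRE_true] at h8 ⊢; omega
    · intro i _ j _ hij
      have key : ∀ i j : ℕ, i < j → Disjoint (LRE 0 w ((i : ℤ) * (s + 1)) ((i : ℤ) * (s + 1) + s))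
          (LRE 0 w ((j : ℤ) * (s + 1)) ((j : ℤ) * (s + 1) + s)) := by
        intro i j hij
        have h3 : (i : ℤ) * (s + 1) + s < (j : ℤ) * (s + 1) := by
          have : (i : ℤ) + 1 ≤ j := by omega
          nlinarith
        rw [Finset.disjoint_left]
        rintro ⟨x, y, _ | _⟩ h8 h9
        · simp only [mem_LRE_false] at h8 h9; omega
        · simp only [mem_LRE_true] at h8 h9; omega
      rcases lt_or_gt_of_ne hij with h3 | h3
      · exact key i j h3
      · exact (key j i h3).symm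
    · intro j _ F _
      rw [not_iff_not]
      exact opn_loc (Finset.Subset.refl _)
    · intro j hj
      have hj2 := hsl j hj
      have hj3 : 0 ≤ (j : ℤ) * (s + 1) := by positivity
      have e1 : Pr P2 (LRE 0 w 0 h) (fun F => ¬ Opn k (LRE 0 w ((j : ℤ) * (s + 1))
          ((j : ℤ) * (s + 1) + s)) (LRc 0 w ((j : ℤ) * (s + 1)) ((j : ℤ) * (s + 1) + s)) F) =
          Pr P2 (LRE 0 w ((j : ℤ) * (s + 1)) ((j : ℤ) * (s + 1) + s))
          (fun F => ¬ Opn k (LRE 0 w ((j : ℤ) * (s + 1))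
          ((j : ℤ) * (s + 1) + s)) (LRc 0 w ((j : ℤ) * (s + 1)) ((j : ℤ) * (s + 1) + s)) F) := by
        apply Pr_local
        · rintro ⟨x, y, _ | _⟩ h8
          · simp only [mem_LRE_false] at h8 ⊢; omega
          · simp only [mem_LRE_true] at h8 ⊢; omega
        · intro F _
          rw [not_iff_not]
          exact opn_loc (Finset.Subset.refl _)
      show Pr P2 (LRE 0 w 0 h) (fun F => ¬ Opn k (LRE 0 w ((j : ℤ) * (s + 1))
          ((j : ℤ) * (s + 1) + s)) (LRc 0 w ((j : ℤ) * (s + 1)) ((j : ℤ) * (s + 1) + s)) F) ≤ _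
      rw [e1]
      exact pr_trans.trans hD

end Pool.Agent.W320.EN
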