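import Pool.Agent.W320.EN.Tail

/-!
# The tail of the cost of a long rectangle
-/

namespace Pool.Agent.W320.EN
open H974 Finset Pool.Agent.W819.EN

theorem line_v {G : Set Edg} {a y : ℤ} (m : ℕ)
    (h : ∀ x : ℤ, y ≤ x → x < y + m → ((a, x, false) : Edg) ∈ G) : Reach G (a, y) (a, y + m) := by
  induction m with
  | zero => simp only [Nat.cast_zero, add_zero]; exact Reach.refl _ _
  | succ m ih =>
    have h1 := ih fun x hx hx2 => h x hx (by push_cast; omega)
    refine h1.trans (Adj.reach ⟨((a, y + m, false) : Edg), h _ (by omega) (by push_cast; omega),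
      Or.inl ⟨?_, ?_⟩⟩)
    · simp [src]
    · simp [tgt, add_assoc]

theorem full_LR {a b c d : ℤ} (hab : a ≤ b) (hcd : c ≤ d) (F : Finset Edg) :
    LRc a b c d (F ∪ LRE a b c d) := by
  refine ⟨c, c, ⟨le_rfl, hcd⟩, ⟨le_rfl, hcd⟩, ?_⟩
  have h := line_h (G := ↑(F ∪ LRE a b c d) ∩ ↑(LRE a b c d)) (a := a) (y := c) (b - a).toNat ?_
  · rwa [show a + ((b - a).toNat : ℤ) = b by omega] at h
  · intro x h1 h2
    have h3 : ((x, c, true) : Edg) ∈ LRE a b c d := by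
      rw [mem_LRE_true]
      omega
    exact ⟨mem_coe.2 (mem_union_right _ h3), mem_coe.2 h3⟩

theorem full_TB {a b c d : ℤ} (hab : a ≤ b) (hcd : c ≤ d) (F : Finset Edg) :
    TBc a b c d (F ∪ TBE a b c d) := by
  refine ⟨a, a, ⟨le_rfl, hab⟩, ⟨le_rfl, hab⟩, ?_⟩
  have h := line_v (G := ↑(F ∪ TBE a b c d) ∩ ↑(TBE a b c d)) (a := a) (y := c) (d - c).toNat ?_
  · rwa [show c + ((d - c).toNat : ℤ) = d by omega] at h
  · intro x h1 h2
    have h3 : ((a, x, false) : Edg) ∈ TBE a b c d := by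
      rw [mem_TBE_false]
      omega
    exact ⟨mem_coe.2 (mem_union_right _ h3), mem_coe.2 h3⟩

theorem opn_locT {k : ℕ} {S T : Finset Edg} {a b c d : ℤ} (hT : TBE a b c d ⊆ T)
    {F : Finset Edg} :
    Opn k S (TBc a b c d) F ↔ Opn k S (TBc a b c d) (F ∩ T) := by
  have key : ∀ X : Finset Edg, TBc a b c d (F ∪ X) ↔ TBc a b c d (F ∩ T ∪ X) := by
    intro X
    rw [TBc_local (S := T) hT, TBc_local (F := F ∩ T ∪ X) (S := T) hT]
    have : (F ∪ X) ∩ T = (F ∩ T ∪ X) ∩ T := by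
      ext e
      simp only [Finset.mem_inter, Finset.mem_union]
      tauto
    rw [this]
  unfold Opn
  constructor
  · rintro ⟨X, h1, h2, h3⟩
    exact ⟨X, h1, h2, (key X).1 h3⟩
  · rintro ⟨X, h1, h2, h3⟩
    exact ⟨X, h1, h2, (key X).2 h3⟩

/-- the cost of an event -/
noncomputable def cst (S : Finset Edg) (C : Finset Edg → Prop) (F : Finset Edg) : ℕ :=
  sInf {k | Opn k S C F}

theorem cst_le {S : Finset Edg} {C : Finset Edg → Prop} {F : Finset Edg} {j : ℕ}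
    (h : j < cst S C F) : ¬ Opn j S C F := fun h2 => Nat.notMem_of_lt_sInf h h2

theorem cst_opn {S : Finset Edg} {C : Finset Edg → Prop} {F : Finset Edg} (h : C (F ∪ S)) :
    Opn (cst S C F) S C F :=
  Nat.sInf_mem (s := {k | Opn k S C F}) ⟨S.card, S, Finset.Subset.refl _, le_rfl, h⟩

theorem cst_congr {S : Finset Edg} {C : Finset Edg → Prop} {F G : Finset Edg}
    (h : ∀ k, Opn k S C F ↔ Opn k S C G) : cst S C F = cst S C G := by
  unfold cst
  congr 1
  ext k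
  exact h k

/-- the cost of a left-right crossing -/
noncomputable def cL (a b c d : ℤ) (F : Finset Edg) : ℕ := cst (LRE a b c d) (LRc a b c d) F

/-- the cost of a top-bottom crossing -/
noncomputable def cT (a b c d : ℤ) (F : Finset Edg) : ℕ := cst (TBE a b c d) (TBc a b c d) F

theorem cL_loc {a b c d : ℤ} (F : Finset Edg) :
    cL a b c d F = cL a b c d (F ∩ LRE a b c d) :=
  cst_congr fun _ => opn_loc (Finset.Subset.refl _)

theorem cT_loc {a b c d : ℤ} (F : Finset Edg) :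
    cT a b c d F = cT a b c d (F ∩ TBE a b c d) :=
  cst_congr fun _ => opn_locT (Finset.Subset.refl _)

theorem opn_cL {a b c d : ℤ} (hab : a ≤ b) (hcd : c ≤ d) (F : Finset Edg) :
    ∃ X : Finset Edg, X.card ≤ cL a b c d F ∧ LRc a b c d (F ∪ X) := by
  obtain ⟨X, _, h2, h3⟩ := cst_opn (full_LR hab hcd F)
  exact ⟨X, h2, h3⟩

theorem opn_cT {a b c d : ℤ} (hab : a ≤ b) (hcd : c ≤ d) (F : Finset Edg) :
    ∃ X : Finset Edg, X.card ≤ cT a b c d F ∧ TBc a b c d (F ∪ X) := by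
  obtain ⟨X, _, h2, h3⟩ := cst_opn (full_TB hab hcd F)
  exact ⟨X, h2, h3⟩

theorem tail_cL (hB : BKR) {U : Finset Edg} {a b c d : ℤ} {q : ℝ} (hU : LRE a b c d ⊆ U)
    (hq : 1 - hh (1 / 2) (b - a) (d - c) ≤ q) (j : ℕ) :
    Pr P2 U (fun F => j < cL a b c d F) ≤ q ^ (j + 1) := by
  have h1 : Pr P2 U (fun F => j < cL a b c d F) ≤
      Pr P2 U (fun F => ¬ Opn j (LRE a b c d) (LRc a b c d) F) :=
    Pr_mono okP fun F _ h => cst_le h
  have h2 : Pr P2 U (fun F => ¬ Opn j (LRE a b c d) (LRc a b c d) F) =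
      Pr P2 (LRE a b c d) (fun F => ¬ Opn j (LRE a b c d) (LRc a b c d) F) := by
    apply Pr_local hU
    intro F _
    rw [not_iff_not]
    exact opn_loc (Finset.Subset.refl _)
  rw [h2] at h1
  refine h1.trans ((hB j a b c d).trans ?_)
  apply pow_le_pow_left₀ _ hq
  have := hh_le_one (q := 1 / 2) (by norm_num) (by norm_num) (b - a) (d - c)
  linarith

theorem bkT (hB : BKR) (j : ℕ) (a b c d : ℤ) :
    Pr P2 (TBE a b c d) (fun F => ¬ Opn j (TBE a b c d) (TBc a b c d) F) ≤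
      (1 - hh (1 / 2) (d - c) (b - a)) ^ (j + 1) := by
  have h1 : TBE a b c d = tps.mp (LRE c d a b) := by rw [tps_LRE]
  rw [h1]
  have h2 := tps.pr (1 / 2) (LRE c d a b)
    (fun F => ¬ Opn j (tps.mp (LRE c d a b)) (TBc a b c d) F)
  refine (le_of_eq h2).trans ?_
  refine le_trans ?_ (hB j c d a b)
  apply Pr_mono okP
  intro F _ hF hO
  exact hF (opn_mp tps (fun G hG => TBc_tps hG) hO)

theorem tail_cT (hB : BKR) {U : Finset Edg} {a b c d : ℤ} {q : ℝ} (hU : TBE a b c d ⊆ U)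
    (hq : 1 - hh (1 / 2) (d - c) (b - a) ≤ q) (j : ℕ) :
    Pr P2 U (fun F => j < cT a b c d F) ≤ q ^ (j + 1) := by
  have h1 : Pr P2 U (fun F => j < cT a b c d F) ≤
      Pr P2 U (fun F => ¬ Opn j (TBE a b c d) (TBc a b c d) F) :=
    Pr_mono okP fun F _ h => cst_le h
  have h2 : Pr P2 U (fun F => ¬ Opn j (TBE a b c d) (TBc a b c d) F) =
      Pr P2 (TBE a b c d) (fun F => ¬ Opn j (TBE a b c d) (TBc a b c d) F) := by
    apply Pr_local hU
    intro F _
    rw [not_iff_not]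
    exact opn_locT (Finset.Subset.refl _)
  rw [h2] at h1
  refine h1.trans ((bkT hB j a b c d).trans ?_)
  apply pow_le_pow_left₀ _ hq
  have := hh_le_one (q := 1 / 2) (by norm_num) (by norm_num) (d - c) (b - a)
  linarith

/-- crossed cells give a long crossing -/
theorem long {F : Finset Edg} {h : ℤ} (hh0 : 0 < h) (M : ℕ)
    (hH : ∀ i : ℕ, i < M + 1 → LRc (i * h) (i * h + 2 * h) 0 h F)
    (hV : ∀ i : ℕ, i < M + 1 → TBc (i * h) (i * h + h) 0 h F) :
    LRc 0 ((M + 2 : ℕ) * h) 0 h F := by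
  induction M with
  | zero =>
    have := hH 0 (by omega)
    have e1 : ((0 : ℕ) : ℤ) * h = 0 := by push_cast; ring
    have e2 : ((0 + 2 : ℕ) : ℤ) * h = 0 + 2 * h := by push_cast; ring
    rw [e1] at this
    rw [e2]
    exact this
  | succ M ih =>
    have ih' := ih (fun i hi => hH i (by omega)) (fun i hi => hV i (by omega))
    have h1 := hH (M + 1) (by omega)
    have h2 := hV (M + 1) (by omega)
    have e1 : ((M + 1 : ℕ) : ℤ) * h + h = ((M + 2 : ℕ) : ℤ) * h := by push_cast; ring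
    have e2 : ((M + 1 : ℕ) : ℤ) * h + 2 * h = ((M + 1 + 2 : ℕ) : ℤ) * h := by push_cast; ring
    rw [e1] at h2
    rw [e2] at h1
    refine glue (by positivity) ?_ ?_ hh0 ih' h1 h2
    · push_cast
      nlinarith
    · push_cast
      nlinarith

/-- total cost of the cells of the four families -/
theorem det {F : Finset Edg} {h w : ℤ} {N k : ℕ} (hh0 : 0 < h) (hw : 0 < w) (hN : 0 < N)
    (hwN : w ≤ (2 * N : ℕ) * h)
    (hk : (∑ i ∈ range N, cL (0 + 2 * i * h) (0 + 2 * i * h + 2 * h) 0 h F) +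
      (∑ i ∈ range N, cL (h + 2 * i * h) (h + 2 * i * h + 2 * h) 0 h F) +
      (∑ i ∈ range N, cT (0 + 2 * i * h) (0 + 2 * i * h + h) 0 h F) +
      (∑ i ∈ range N, cT (h + 2 * i * h) (h + 2 * i * h + h) 0 h F) ≤ k) :
    Opn k (LRE 0 w 0 h) (LRc 0 w 0 h) F := by
  classical
  have h1 : ∀ o : ℤ, ∀ i : ℕ, ∃ X : Finset Edg,
      X.card ≤ cL (o + 2 * i * h) (o + 2 * i * h + 2 * h) 0 h F ∧
      LRc (o + 2 * i * h) (o + 2 * i * h + 2 * h) 0 h (F ∪ X) := fun o i =>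
    opn_cL (by linarith) hh0.le F
  have h2 : ∀ o : ℤ, ∀ i : ℕ, ∃ X : Finset Edg,
      X.card ≤ cT (o + 2 * i * h) (o + 2 * i * h + h) 0 h F ∧
      TBc (o + 2 * i * h) (o + 2 * i * h + h) 0 h (F ∪ X) := fun o i =>
    opn_cT (by linarith) hh0.le F
  choose XL hL1 hL2 using h1
  choose XT hT1 hT2 using h2
  set Y : Finset Edg := ((range N).biUnion (XL 0) ∪ (range N).biUnion (XL h)) ∪
    (range N).biUnion (XT 0) ∪ (range N).biUnion (XT h) with hY
  have cY : Y.card ≤ k := by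
    refine le_trans ?_ hk
    refine (Finset.card_union_le _ _).trans (add_le_add ?_ ?_)
    · refine (Finset.card_union_le _ _).trans (add_le_add ?_ ?_)
      · refine (Finset.card_union_le _ _).trans (add_le_add ?_ ?_)
        · exact Finset.card_biUnion_le.trans (Finset.sum_le_sum fun i _ => hL1 0 i)
        · exact Finset.card_biUnion_le.trans (Finset.sum_le_sum fun i _ => hL1 h i)
      · exact Finset.card_biUnion_le.trans (Finset.sum_le_sum fun i _ => hT1 0 i)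
    · exact Finset.card_biUnion_le.trans (Finset.sum_le_sum fun i _ => hT1 h i)
  have s1 : ∀ i < N, XL 0 i ⊆ Y := by
    intro i hi e he
    rw [hY]
    simp only [Finset.mem_union, Finset.mem_biUnion, Finset.mem_range]
    exact Or.inl (Or.inl (Or.inl ⟨i, hi, he⟩))
  have s2 : ∀ i < N, XL h i ⊆ Y := by
    intro i hi e he
    rw [hY]
    simp only [Finset.mem_union, Finset.mem_biUnion, Finset.mem_range]
    exact Or.inl (Or.inl (Or.inr ⟨i, hi, he⟩))
  have s3 : ∀ i < N, XT 0 i ⊆ Y := by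
    intro i hi e he
    rw [hY]
    simp only [Finset.mem_union, Finset.mem_biUnion, Finset.mem_range]
    exact Or.inl (Or.inr ⟨i, hi, he⟩)
  have s4 : ∀ i < N, XT h i ⊆ Y := by
    intro i hi e he
    rw [hY]
    simp only [Finset.mem_union, Finset.mem_biUnion, Finset.mem_range]
    exact Or.inr ⟨i, hi, he⟩
  have hH : ∀ i : ℕ, i < (2 * N - 1) + 1 → LRc (i * h) (i * h + 2 * h) 0 h (F ∪ Y) := by
    intro i hi
    rcases Nat.even_or_odd' i with ⟨j, rfl | rfl⟩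
    · have h3 := (hL2 0 j).mono (Finset.union_subset_union (Finset.Subset.refl F)
        (s1 j (by omega)))
      have e : ((2 * j : ℕ) : ℤ) * h = 0 + 2 * j * h := by push_cast; ring
      rw [e]
      exact h3
    · have h3 := (hL2 h j).mono (Finset.union_subset_union (Finset.Subset.refl F)
        (s2 j (by omega)))
      have e : ((2 * j + 1 : ℕ) : ℤ) * h = h + 2 * j * h := by push_cast; ring
      rw [e]
      exact h3
  have hV : ∀ i : ℕ, i < (2 * N - 1) + 1 → TBc (i * h) (i * h + h) 0 h (F ∪ Y) := by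
    intro i hi
    rcases Nat.even_or_odd' i with ⟨j, rfl | rfl⟩
    · have h3 := (hT2 0 j).mono (Finset.union_subset_union (Finset.Subset.refl F)
        (s3 j (by omega)))
      have e : ((2 * j : ℕ) : ℤ) * h = 0 + 2 * j * h := by push_cast; ring
      rw [e]
      exact h3
    · have h3 := (hT2 h j).mono (Finset.union_subset_union (Finset.Subset.refl F)
        (s4 j (by omega)))
      have e : ((2 * j + 1 : ℕ) : ℤ) * h = h + 2 * j * h := by push_cast; ring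
      rw [e]
      exact h3
  have h5 := long hh0 (2 * N - 1) hH hV
  have h6 : LRc 0 w 0 h (F ∪ Y) := by
    refine LRc_sub le_rfl hw (hwN.trans ?_) le_rfl le_rfl h5
    apply mul_le_mul_of_nonneg_right _ hh0.le
    omega
  refine ⟨Y ∩ LRE 0 w 0 h, Finset.inter_subset_right,
    (Finset.card_le_card Finset.inter_subset_left).trans cY, ?_⟩
  rw [LRc_local (Finset.Subset.refl _)] at h6 ⊢
  have : (F ∪ Y ∩ LRE 0 w 0 h) ∩ LRE 0 w 0 h = (F ∪ Y) ∩ LRE 0 w 0 h := by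
    ext e
    simp only [Finset.mem_inter, Finset.mem_union]
    tauto
  rw [this]
  exact h6

theorem famL (hB : BKR) (hS : SumTail) {q l : ℝ} (hq0 : 0 ≤ q) (hl : 1 ≤ l) (hlq : l * q < 1)
    {h : ℤ} (hh0 : 0 < h) (hq : 1 - hh (1 / 2) (2 * h) h ≤ q) (o w : ℤ) (N : ℕ) (ho : 0 ≤ o)
    (hw : o + 2 * N * h ≤ w) (k : ℕ) :
    Pr P2 (RE 0 w 0 h)
      (fun F => k ≤ ∑ i ∈ range N, cL (o + 2 * i * h) (o + 2 * i * h + 2 * h) 0 h F) ≤
      (1 / (1 - l * q)) ^ N * (1 / l) ^ k := by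
  have sub : ∀ i < N, LRE (o + 2 * i * h) (o + 2 * i * h + 2 * h) 0 h ⊆ RE 0 w 0 h := by
    intro i hi
    have h1 : 0 ≤ o + 2 * (i : ℤ) * h := by positivity
    have h2 : o + 2 * (i : ℤ) * h + 2 * h ≤ w := by
      refine le_trans ?_ hw
      have : (i : ℤ) + 1 ≤ N := by omega
      nlinarith
    rintro ⟨x, y, _ | _⟩ h8
    · simp only [mem_RE_false, mem_LRE_false] at h8 ⊢; omega
    · simp only [mem_RE_true, mem_LRE_true] at h8 ⊢; omega
  apply hS (RE 0 w 0 h) N (fun i => LRE (o + 2 * i * h) (o + 2 * i * h + 2 * h) 0 h)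
    (fun i => cL (o + 2 * i * h) (o + 2 * i * h + 2 * h) 0 h) q l hq0 hl hlq sub
  · have key : ∀ i j : ℕ, i < j → Disjoint (LRE (o + 2 * i * h) (o + 2 * i * h + 2 * h) 0 h)
        (LRE (o + 2 * j * h) (o + 2 * j * h + 2 * h) 0 h) := by
      intro i j hij
      have h3 : o + 2 * (i : ℤ) * h + 2 * h ≤ o + 2 * (j : ℤ) * h := by
        have : (i : ℤ) + 1 ≤ j := by omega
        nlinarith
      rw [Finset.disjoint_left]
      rintro ⟨x, y, _ | _⟩ h8 h9
      · simp only [mem_LRE_false] at h8 h9; omega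
      · simp only [mem_LRE_true] at h8 h9; omega
    intro i _ j _ hij
    rcases lt_or_gt_of_ne hij with h3 | h3
    · exact key i j h3
    · exact (key j i h3).symm
  · intro i _ F _
    exact cL_loc F
  · intro i hi j
    apply tail_cL hB (sub i hi)
    have e1 : o + 2 * (i : ℤ) * h + 2 * h - (o + 2 * i * h) = 2 * h := by ring
    have e2 : h - 0 = h := by ring
    rw [e1, e2]
    exact hq

theorem famT (hB : BKR) (hS : SumTail) {q l : ℝ} (hq0 : 0 ≤ q) (hl : 1 ≤ l) (hlq : l * q < 1)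
    {h : ℤ} (hh0 : 0 < h) (hq : 1 - hh (1 / 2) h h ≤ q) (o w : ℤ) (N : ℕ) (ho : 0 ≤ o)
    (hw : o + 2 * N * h ≤ w) (k : ℕ) :
    Pr P2 (RE 0 w 0 h)
      (fun F => k ≤ ∑ i ∈ range N, cT (o + 2 * i * h) (o + 2 * i * h + h) 0 h F) ≤
      (1 / (1 - l * q)) ^ N * (1 / l) ^ k := by
  have sub : ∀ i < N, TBE (o + 2 * i * h) (o + 2 * i * h + h) 0 h ⊆ RE 0 w 0 h := by
    intro i hi
    have h1 : 0 ≤ o + 2 * (i : ℤ) * h := by positivity
    have h2 : o + 2 * (i : ℤ) * h + 2 * h ≤ w := by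
      refine le_trans ?_ hw
      have : (i : ℤ) + 1 ≤ N := by omega
      nlinarith
    rintro ⟨x, y, _ | _⟩ h8
    · simp only [mem_RE_false, mem_TBE_false] at h8 ⊢; omega
    · simp only [mem_RE_true, mem_TBE_true] at h8 ⊢; omega
  apply hS (RE 0 w 0 h) N (fun i => TBE (o + 2 * i * h) (o + 2 * i * h + h) 0 h)
    (fun i => cT (o + 2 * i * h) (o + 2 * i * h + h) 0 h) q l hq0 hl hlq sub
  · have key : ∀ i j : ℕ, i < j → Disjoint (TBE (o + 2 * i * h) (o + 2 * i * h + h) 0 h)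
        (TBE (o + 2 * j * h) (o + 2 * j * h + h) 0 h) := by
      intro i j hij
      have h3 : o + 2 * (i : ℤ) * h + 2 * h ≤ o + 2 * (j : ℤ) * h := by
        have : (i : ℤ) + 1 ≤ j := by omega
        nlinarith
      rw [Finset.disjoint_left]
      rintro ⟨x, y, _ | _⟩ h8 h9
      · simp only [mem_TBE_false] at h8 h9; omega
      · simp only [mem_TBE_true] at h8 h9; omega
    intro i _ j _ hij
    rcases lt_or_gt_of_ne hij with h3 | h3
    · exact key i j h3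
    · exact (key j i h3).symm
  · intro i _ F _
    exact cT_loc F
  · intro i hi j
    apply tail_cT hB (sub i hi)
    have e1 : o + 2 * (i : ℤ) * h + h - (o + 2 * i * h) = h := by ring
    have e2 : h - 0 = h := by ring
    rw [e1, e2]
    exact hq

/-- the constants -/
theorem consts (c : ℝ) (h0 : 0 < c) (h1 : c < 1) : ∃ q l ρ : ℝ, 0 ≤ q ∧ 1 ≤ l ∧ l * q < 1 ∧
    1 - c ≤ q ∧ 0 < ρ ∧ ρ < 1 ∧ 1 / l ≤ ρ ^ 4 := by
  have hl : 1 < 1 + c / 2 := by linarith
  have hi1 : 1 / (1 + c / 2) < 1 := by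
    rw [div_lt_one (by linarith)]
    exact hl
  have hi0 : 0 < 1 / (1 + c / 2) := by positivity
  refine ⟨1 - c, 1 + c / 2, 1 + -((1 - 1 / (1 + c / 2)) / 4), by linarith, hl.le,
    by nlinarith, le_rfl, by linarith, by linarith, ?_⟩
  have := one_add_mul_le_pow (a := -((1 - 1 / (1 + c / 2)) / 4)) (by linarith) 4
  push_cast at this
  linarith

theorem t_SLAB (hB : BKR) (hS : SumTail) : Slab := by
  obtain ⟨c, hc0, hc1, hc⟩ : ∃ c : ℝ, 0 < c ∧ c < 1 ∧ ∀ {n w h : ℤ}, 0 < n → 0 < w →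
      w ≤ 8 * n → 2 * n ≤ h → c ≤ hh (1 / 2) w h :=
    ⟨(1 / 2) ^ 47, by positivity, pow_lt_one₀ (by norm_num) (by norm_num) (by norm_num),
      fun h1 h2 h3 h4 => rsw h1 h2 h3 h4⟩
  obtain ⟨q, l, ρ, hq0, hl, hlq, hcq, hρ0, hρ1, hlρ⟩ := consts c hc0 hc1
  refine ⟨ρ, hρ0, hρ1, fun m => ?_⟩
  set N := m + 1 with hN
  have hpos : 0 < 1 / (1 - l * q) := by
    apply one_div_pos.2
    linarith
  refine ⟨4 * (1 / (1 - l * q)) ^ N / ρ ^ 4, by positivity, fun w h hh2 hw hwm k => ?_⟩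
  have hh0 : 0 < h := by linarith
  have q1 : 1 - hh (1 / 2) (2 * h) h ≤ q := by
    have := hc (n := h / 2) (w := 2 * h) (h := h) (by omega) (by omega) (by omega) (by omega)
    linarith
  have q2 : 1 - hh (1 / 2) h h ≤ q := by
    have := hc (n := h / 2) (w := h) (h := h) (by omega) (by omega) (by omega) (by omega)
    linarith
  set W : ℤ := h + 2 * N * h with hW
  have hNz : ((m : ℤ)) * h ≤ (N : ℤ) * h := by
    apply mul_le_mul_of_nonneg_right _ hh0.le
    rw [hN]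
    push_cast
    linarith
  have hwN : w ≤ ((2 * N : ℕ) : ℤ) * h := by
    push_cast
    have : (0 : ℤ) ≤ (N : ℤ) * h := by positivity
    nlinarith
  have hwW : w ≤ W := by
    rw [hW]
    push_cast at hwN
    linarith
  have e1 : Pr P2 (LRE 0 w 0 h) (fun F => ¬ Opn k (LRE 0 w 0 h) (LRc 0 w 0 h) F) =
      Pr P2 (RE 0 W 0 h) (fun F => ¬ Opn k (LRE 0 w 0 h) (LRc 0 w 0 h) F) := by
    symm
    apply Pr_local
    · rintro ⟨x, y, _ | _⟩ h8
      · simp only [mem_RE_false, mem_LRE_false] at h8 ⊢; omega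
      · simp only [mem_RE_true, mem_LRE_true] at h8 ⊢; omega
    · intro F _
      rw [not_iff_not]
      exact opn_loc (Finset.Subset.refl _)
  have f1 := famL hB hS hq0 hl hlq hh0 q1 0 W N le_rfl (by rw [hW]; linarith) (k / 4)
  have f2 := famL hB hS hq0 hl hlq hh0 q1 h W N hh0.le (by rw [hW]) (k / 4)
  have f3 := famT hB hS hq0 hl hlq hh0 q2 0 W N le_rfl (by rw [hW]; linarith) (k / 4)
  have f4 := famT hB hS hq0 hl hlq hh0 q2 h W N hh0.le (by rw [hW]) (k / 4)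
  have e2 : Pr P2 (RE 0 W 0 h) (fun F => ¬ Opn k (LRE 0 w 0 h) (LRc 0 w 0 h) F) ≤
      Pr P2 (RE 0 W 0 h) (fun F =>
        ((k / 4 ≤ ∑ i ∈ range N, cL (0 + 2 * i * h) (0 + 2 * i * h + 2 * h) 0 h F) ∨
        (k / 4 ≤ ∑ i ∈ range N, cL (h + 2 * i * h) (h + 2 * i * h + 2 * h) 0 h F)) ∨
        ((k / 4 ≤ ∑ i ∈ range N, cT (0 + 2 * i * h) (0 + 2 * i * h + h) 0 h F) ∨
        (k / 4 ≤ ∑ i ∈ range N, cT (h + 2 * i * h) (h + 2 * i * h + h) 0 h F))) := by
    apply Pr_mono okP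
    intro F _ hF
    by_contra hcon
    push Not at hcon
    obtain ⟨⟨g1, g2⟩, g3, g4⟩ := hcon
    apply hF
    apply det hh0 hw (N := N) (by omega) hwN
    omega
  have e3 := Pr_or_le okP (RE 0 W 0 h)
    (fun F => (k / 4 ≤ ∑ i ∈ range N, cL (0 + 2 * i * h) (0 + 2 * i * h + 2 * h) 0 h F) ∨
        (k / 4 ≤ ∑ i ∈ range N, cL (h + 2 * i * h) (h + 2 * i * h + 2 * h) 0 h F))
    (fun F => (k / 4 ≤ ∑ i ∈ range N, cT (0 + 2 * i * h) (0 + 2 * i * h + h) 0 h F) ∨
        (k / 4 ≤ ∑ i ∈ range N, cT (h + 2 * i * h) (h + 2 * i * h + h) 0 h F))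
  have e4 := Pr_or_le okP (RE 0 W 0 h)
    (fun F => k / 4 ≤ ∑ i ∈ range N, cL (0 + 2 * i * h) (0 + 2 * i * h + 2 * h) 0 h F)
    (fun F => k / 4 ≤ ∑ i ∈ range N, cL (h + 2 * i * h) (h + 2 * i * h + 2 * h) 0 h F)
  have e5 := Pr_or_le okP (RE 0 W 0 h)
    (fun F => k / 4 ≤ ∑ i ∈ range N, cT (0 + 2 * i * h) (0 + 2 * i * h + h) 0 h F)
    (fun F => k / 4 ≤ ∑ i ∈ range N, cT (h + 2 * i * h) (h + 2 * i * h + h) 0 h F)
  have e6 : (1 / l) ^ (k / 4) ≤ ρ ^ k / ρ ^ 4 := by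
    rw [le_div_iff₀ (by positivity)]
    calc (1 / l) ^ (k / 4) * ρ ^ 4 ≤ (ρ ^ 4) ^ (k / 4) * ρ ^ 4 := by
          apply mul_le_mul_of_nonneg_right _ (by positivity)
          exact pow_le_pow_left₀ (by positivity) hlρ _
      _ = ρ ^ (4 * (k / 4) + 4) := by rw [← pow_mul, ← pow_add]
      _ ≤ ρ ^ k := pow_le_pow_of_le_one hρ0.le hρ1.le (by omega)
  have e7 : (1 / (1 - l * q)) ^ N * (1 / l) ^ (k / 4) ≤
      (1 / (1 - l * q)) ^ N * (ρ ^ k / ρ ^ 4) :=
    mul_le_mul_of_nonneg_left e6 (by positivity)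
  rw [e1]
  calc _ ≤ 4 * ((1 / (1 - l * q)) ^ N * (1 / l) ^ (k / 4)) := by linarith
    _ ≤ 4 * ((1 / (1 - l * q)) ^ N * (ρ ^ k / ρ ^ 4)) := by linarith
    _ = _ := by ring

end Pool.Agent.W320.EN
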